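import Mathlib

/-!
First jet ideals of edge ideals of graphs: definitions.
-/

namespace Pool.Agent.Lib.MP_dc74b6_ag.Graph

open MvPolynomial

/-- The edge ideal of a graph: generated by the products `x_i x_j` over the edges. -/
noncomputable def graphIdeal (k : Type) [Field k] {V : Type} (G : SimpleGraph V) :
    Ideal (MvPolynomial V k) :=
  Ideal.span {m | ∃ i j, G.Adj i j ∧ m = X i * X j}

/-- The substitution `x_i ↦ ∑_{j ≤ s} x_{i,j} t^j`, with values in `S_s[t]`. -/
noncomputable def jetSubst (k : Type) [Field k] (V : Type) (s : ℕ) :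
    MvPolynomial V k →ₐ[k] Polynomial (MvPolynomial (V × Fin (s + 1)) k) :=
  aeval fun i => ∑ j : Fin (s + 1), Polynomial.C (X (i, j)) * Polynomial.X ^ (j : ℕ)

/-- The `s`-jet ideal of `I`: generated by the coefficients `f^{(j)}` of `t^j`, `0 ≤ j ≤ s`,
in the substituted polynomials, `f ∈ I`. -/
noncomputable def jetIdeal {k : Type} [Field k] {V : Type} (s : ℕ)
    (I : Ideal (MvPolynomial V k)) : Ideal (MvPolynomial (V × Fin (s + 1)) k) :=
  Ideal.span {g | ∃ f ∈ I, ∃ j ≤ s, g = (jetSubst k V s f).coeff j}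

/-- `i` is an isolated vertex of the subgraph induced on `U`. -/
def Iso {V : Type} (G : SimpleGraph V) (U : Set V) (i : V) : Prop :=
  i ∈ U ∧ ∀ v ∈ U, ¬ G.Adj i v

/-- There is a walk of length `m` from `i` to `v` inside `U`. -/
def InWalk {V : Type} (G : SimpleGraph V) (U : Set V) (i v : V) (m : ℕ) : Prop :=
  ∃ p : G.Walk i v, (∀ w ∈ p.support, w ∈ U) ∧ p.length = m

/-- In characteristic two: `i` and `v` are joined by a walk inside `U`.  Otherwise: they are joined
by a walk of even length inside `U`, or each lies on a closed walk of odd length inside `U`. -/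
def Tied (k : Type) [Field k] {V : Type} (G : SimpleGraph V) (U : Set V) (i v : V) : Prop :=
  ((2 : k) = 0 ∧ ∃ m, InWalk G U i v m) ∨ (∃ m, Even m ∧ InWalk G U i v m) ∨
    ((2 : k) ≠ 0 ∧ (∃ m, Odd m ∧ InWalk G U i i m) ∧ ∃ m, Odd m ∧ InWalk G U v v m)

/-- The ideal generated by the `x_{i,0}` with `i` not isolated in `U` and the `x_{j,1}` with
`j ∉ U`. -/
noncomputable def primeOf (k : Type) [Field k] {V : Type} (G : SimpleGraph V) (U : Set V) :
    Ideal (MvPolynomial (V × Fin 2) k) :=
  Ideal.span ({m | ∃ i, ¬ Iso G U i ∧ m = X (i, 0)} ∪ {m | ∃ j, j ∉ U ∧ m = X (j, 1)})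

end Pool.Agent.Lib.MP_dc74b6_ag.Graph
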