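import Pool.Agent.Lib.MP_dc74b6_ag.Graph.Ring

/-!
The first jet ideal is the intersection of the kernels of the maps `phi U`.
-/

noncomputable section

namespace Pool.Agent.Lib.MP_dc74b6_ag.Graph

open MvPolynomial Classical

variable {k : Type} [Field k] {V : Type} {G : SimpleGraph V} {U : Set V}

/-- `x_v ↦ t_v Y_v`, `y_v ↦ Y_v` on `U`, zero outside -/
def psi (k : Type) [Field k] {R : Type} [CommRing R] [Algebra k R] (U : Set V) (t : V → R) :
    MvPolynomial (V × Fin 2) k →ₐ[k] MvPolynomial V R :=
  aeval fun p => if p.1 ∈ U then (if p.2 = 0 then C (t p.1) * X p.1 else X p.1) else 0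

section

variable {R R' : Type} [CommRing R] [Algebra k R] [CommRing R'] [Algebra k R'] {t : V → R}

lemma psi_x (v : V) : psi k U t (X (v, 0)) = if v ∈ U then C (t v) * X v else 0 := by simp [psi]

lemma psi_y (v : V) : psi k U t (X (v, 1)) = if v ∈ U then X v else 0 := by simp [psi]

lemma psi_map (ρ : R →ₐ[k] R') (f : MvPolynomial (V × Fin 2) k) :
    psi k U (fun v => ρ (t v)) f = mapAlgHom ρ (psi k U t f) := by
  have h : psi k U (fun v => ρ (t v)) = (mapAlgHom ρ).comp (psi k U t) := by
    refine algHom_ext (fin_two (fun v => ?_) fun v => ?_)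
    · rw [AlgHom.comp_apply, psi_x, psi_x]
      split_ifs <;> simp
    · rw [AlgHom.comp_apply, psi_y, psi_y]
      split_ifs <;> simp
  rw [h, AlgHom.comp_apply]

lemma psi_of_phi (h1 : ∀ a ∈ U, ∀ b ∈ U, G.Adj a b → t a * t b = 0)
    (h2 : ∀ a ∈ U, ∀ b ∈ U, G.Adj a b → t a + t b = 0) {f : MvPolynomial (V × Fin 2) k}
    (hf : phi k G U f = 0) : psi k U t f = 0 := by
  obtain ⟨ρ, hρ⟩ := exists_lift (k := k) (G := G) (U := U)
    (u := fun v => if v ∉ U ∨ Iso G U v then 0 else t v) (by
      have h3 : ∀ a ∈ U, ∀ b ∈ U, G.Adj a b → ¬ (a ∉ U ∨ Iso G U a) := fun a ha b hb h h4 =>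
        h4.elim (fun h5 => h5 ha) fun h5 => h5.2 b hb h
      refine ⟨fun a ha b hb h => ?_, fun a ha b hb h => ?_, fun a h => if_pos h⟩
      · simp only [if_neg (h3 a ha b hb h), if_neg (h3 b hb a ha h.symm), h1 a ha b hb h]
      · simp only [if_neg (h3 a ha b hb h), if_neg (h3 b hb a ha h.symm), h2 a ha b hb h])
  have h : psi k U t = (aevalTower ((IsScalarTower.toAlgHom k R (MvPolynomial V R)).comp ρ)
      fun p : V × Fin 2 => if p.2 = 0 then C (t p.1) * X p.1 else X p.1).comp (phi k G U) := by
    refine algHom_ext (fin_two (fun v => ?_) fun v => ?_)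
    · rw [AlgHom.comp_apply, psi_x, phi_x]
      by_cases h3 : Iso G U v
      · simp [h3, h3.1]
      · by_cases h4 : v ∈ U <;> simp [h3, h4, hρ]
    · rw [AlgHom.comp_apply, psi_y, phi_y]
      split_ifs <;> simp
  rw [h, AlgHom.comp_apply, hf, map_zero]

end

/-- the edge relations only -/
def KB (k : Type) [Field k] (G : SimpleGraph V) (U : Set V) : Ideal (MvPolynomial V k) :=
  Ideal.span ({m | ∃ a ∈ U, ∃ b ∈ U, G.Adj a b ∧ m = X a * X b} ∪
    {m | ∃ a ∈ U, ∃ b ∈ U, G.Adj a b ∧ m = X a + X b})

/-- the quotient by the edge relations -/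
def B (k : Type) [Field k] (G : SimpleGraph V) (U : Set V) : Type := MvPolynomial V k ⧸ KB k G U

instance : CommRing (B k G U) := inferInstanceAs (CommRing (MvPolynomial V k ⧸ KB k G U))

instance : Algebra k (B k G U) := inferInstanceAs (Algebra k (MvPolynomial V k ⧸ KB k G U))

/-- the quotient map -/
def mkB (k : Type) [Field k] (G : SimpleGraph V) (U : Set V) : MvPolynomial V k →ₐ[k] B k G U :=
  Ideal.Quotient.mkₐ k (KB k G U)

lemma mkB_eq_zero {c : MvPolynomial V k} : mkB k G U c = 0 ↔ c ∈ KB k G U :=
  Ideal.Quotient.eq_zero_iff_mem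

lemma coeff_mem {f : MvPolynomial (V × Fin 2) k} (hf : phi k G U f = 0) (d : V →₀ ℕ) :
    coeff d (psi k U (X : V → MvPolynomial V k) f) ∈ KB k G U := by
  have h := psi_of_phi (t := fun v => mkB k G U (X v))
    (fun a ha b hb h => by
      rw [← map_mul, mkB_eq_zero]
      exact Ideal.subset_span (.inl ⟨a, ha, b, hb, h, rfl⟩))
    (fun a ha b hb h => by
      rw [← map_add, mkB_eq_zero]
      exact Ideal.subset_span (.inr ⟨a, ha, b, hb, h, rfl⟩)) hf
  rw [psi_map] at h
  have h1 := congrArg (coeff d) h
  rw [mapAlgHom_apply, coeff_map, coeff_zero] at h1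
  exact mkB_eq_zero.1 h1

variable [Finite V]

/-- a slice of an exponent vector -/
def sl (j : Fin 2) (a : V × Fin 2 →₀ ℕ) : V →₀ ℕ :=
  Finsupp.equivFunOnFinite.symm fun v => a (v, j)

lemma sl_apply (j : Fin 2) (a : V × Fin 2 →₀ ℕ) (v : V) : sl j a v = a (v, j) := rfl

lemma sl_add (j : Fin 2) (a b : V × Fin 2 →₀ ℕ) : sl j (a + b) = sl j a + sl j b := by
  ext v
  rfl

lemma sl_zero (j : Fin 2) : sl j (0 : V × Fin 2 →₀ ℕ) = 0 := by
  ext v
  rfl

lemma sl_single (j j' : Fin 2) (v : V) (n : ℕ) :
    sl j (Finsupp.single (v, j') n) = if j' = j then Finsupp.single v n else 0 := by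
  ext w
  split_ifs with h <;> simp [sl_apply, Finsupp.single_apply, h]

/-- the monomial `x^α y^β` -/
def mon (k : Type) [Field k] (α β : V →₀ ℕ) : MvPolynomial (V × Fin 2) k :=
  monomial (Finsupp.equivFunOnFinite.symm fun p => if p.2 = 0 then α p.1 else β p.1) 1

lemma mon_sl (a : V × Fin 2 →₀ ℕ) : mon k (sl 0 a) (sl 1 a) = monomial a 1 := by
  rw [mon]
  congr 2
  ext p
  revert p
  exact fin_two (fun _ => rfl) fun _ => rfl

lemma mon_x (α β : V →₀ ℕ) (v : V) : mon k (α + Finsupp.single v 1) β = mon k α β * X (v, 0) := by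
  rw [mon, mon, X, monomial_mul, mul_one]
  congr 2
  ext p
  revert p
  exact fin_two (fun w => by simp [Finsupp.single_apply]) fun w => by simp [Finsupp.single_apply]

lemma mon_y (α β : V →₀ ℕ) (v : V) : mon k α (β + Finsupp.single v 1) = mon k α β * X (v, 1) := by
  rw [mon, mon, X, monomial_mul, mul_one]
  congr 2
  ext p
  revert p
  exact fin_two (fun w => by simp [Finsupp.single_apply]) fun w => by simp [Finsupp.single_apply]

lemma mon_mem {α β : V →₀ ℕ} {a b : V} (h : G.Adj a b) (ha : α a ≠ 0) (hb : α b ≠ 0) :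
    mon k α β ∈ JJ k G := by
  have h1 : α = α - (Finsupp.single a 1 + Finsupp.single b 1) + Finsupp.single a 1 +
      Finsupp.single b 1 := by
    ext v
    have := h.ne
    simp only [Finsupp.add_apply, Finsupp.tsub_apply, Finsupp.single_apply]
    split_ifs with h2 h3 h3
    · exact absurd (h2.trans h3.symm) this
    · subst h2; omega
    · subst h3; omega
    · omega
  rw [h1, mon_x, mon_x, mul_assoc]
  exact Ideal.mul_mem_left _ _ (gen_zero h)

/-- homogenisation to the degree `d` -/
def theta (k : Type) [Field k] (d : V →₀ ℕ) :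
    MvPolynomial V k →ₗ[k] MvPolynomial (V × Fin 2) k :=
  (basisMonomials V k).constr k fun β => if β ≤ d then mon k β (d - β) else 0

lemma theta_monomial (d β : V →₀ ℕ) (r : k) :
    theta k d (monomial β r) = r • if β ≤ d then mon k β (d - β) else 0 := by
  have h : monomial β r = r • basisMonomials V k β := by simp [smul_monomial]
  rw [h, map_smul, theta, Module.Basis.constr_basis]

lemma half {d β : V →₀ ℕ} {a b : V} (h : G.Adj a b) (hb : d b ≠ 0)
    (h1 : β + Finsupp.single a 1 ≤ d) (h2 : ¬ β + Finsupp.single b 1 ≤ d) (γ : V →₀ ℕ) :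
    mon k (β + Finsupp.single a 1) γ ∈ JJ k G := by
  refine mon_mem h (by simp) fun h3 => h2 fun v => ?_
  have h4 := h1 v
  simp only [Finsupp.add_apply, Finsupp.single_apply] at h3 h4 ⊢
  split_ifs with h5
  · subst h5; omega
  · omega

lemma theta_mem {d : V →₀ ℕ} (hd : ∀ v ∈ U, d v ≠ 0) {c : MvPolynomial V k} (hc : c ∈ KB k G U) :
    theta k d c ∈ JJ k G := by
  have key : ∀ m, theta k d (m * c) ∈ JJ k G := by
    induction hc using Submodule.span_induction with
    | zero => simp
    | add x y _ _ hx hy => exact fun m => by rw [mul_add, map_add]; exact add_mem (hx m) (hy m)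
    | smul r x _ hx => exact fun m => by rw [smul_eq_mul, ← mul_assoc]; exact hx _
    | mem x hx =>
      intro m
      induction m using MvPolynomial.induction_on' with
      | add p q hp hq => rw [add_mul, map_add]; exact add_mem hp hq
      | monomial β r =>
        rcases hx with ⟨a, ha, b, hb, h, rfl⟩ | ⟨a, ha, b, hb, h, rfl⟩
        · rw [X, X, monomial_mul, monomial_mul, theta_monomial]
          refine Submodule.smul_of_tower_mem _ _ ?_
          split_ifs
          · exact mon_mem h (by simp) (by simp)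
          · exact zero_mem _
        · rw [mul_add, X, X, monomial_mul, monomial_mul, map_add, theta_monomial, theta_monomial,
            ← smul_add]
          refine Submodule.smul_of_tower_mem _ _ ?_
          split_ifs with h1 h2 h2
          · have e : ∀ {a b : V}, a ≠ b → β + Finsupp.single a 1 ≤ d → β + Finsupp.single b 1 ≤ d →
                d - (β + Finsupp.single a 1) =
                  d - β - (Finsupp.single a 1 + Finsupp.single b 1) + Finsupp.single b 1 := by
              intro a b hab h1 h2
              ext v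
              have h3 := h1 v
              have h4 := h2 v
              simp only [Finsupp.add_apply, Finsupp.tsub_apply, Finsupp.single_apply] at h3 h4 ⊢
              split_ifs at h3 h4 ⊢ with h5 h6 h6
              · exact absurd (h5.trans h6.symm) hab
              all_goals omega
            rw [e h.ne h1 h2, e h.ne' h2 h1, add_comm (Finsupp.single b 1), mon_x, mon_x, mon_y,
              mon_y, mul_assoc, mul_assoc, ← mul_add, mul_comm (X (b, 1))]
            exact Ideal.mul_mem_left _ _ (gen_one h)
          · rw [add_zero]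
            exact half h (hd b hb) h1 h2 _
          · rw [zero_add]
            exact half h.symm (hd a ha) h2 h1 _
          · rw [add_zero]
            exact zero_mem _
  simpa using key 1

lemma psi_monomial (a : V × Fin 2 →₀ ℕ) (ha : ∀ p, a p ≠ 0 → p.1 ∈ U) :
    psi k U (X : V → MvPolynomial V k) (monomial a 1) =
      monomial (sl 0 a + sl 1 a) (monomial (sl 0 a) 1) := by
  induction a using Finsupp.induction_linear with
  | zero => simp [sl_zero]
  | add a b iha ihb =>
    rw [← mul_one (1 : k), ← monomial_mul, map_mul,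
      iha fun p hp => ha p (by rw [Finsupp.add_apply]; omega),
      ihb fun p hp => ha p (by rw [Finsupp.add_apply]; omega), monomial_mul, monomial_mul, sl_add,
      sl_add, add_add_add_comm]
  | single p n =>
    rcases eq_or_ne n 0 with rfl | hn
    · simp [sl_zero]
    have hp := ha p (by simpa using hn)
    rw [← X_pow_eq_monomial, map_pow]
    clear ha
    revert p
    refine fin_two (fun v hv => ?_) fun v hv => ?_
    · rw [psi_x, if_pos hv, sl_single, sl_single, if_pos rfl, if_neg (by decide), add_zero, mul_pow,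
        ← map_pow, X_pow_eq_monomial, X_pow_eq_monomial, C_mul_monomial, mul_one]
    · rw [psi_y, if_pos hv, sl_single, sl_single, if_pos rfl, if_neg (by decide), zero_add,
        X_pow_eq_monomial]
      rfl

omit [Finite V] in
lemma psi_monomial_zero (a : V × Fin 2 →₀ ℕ) {p : V × Fin 2} (h : a p ≠ 0) (hp : p.1 ∉ U) :
    psi k U (X : V → MvPolynomial V k) (monomial a 1) = 0 := by
  rw [psi, aeval_monomial, Finsupp.prod,
    Finset.prod_eq_zero (Finsupp.mem_support_iff.2 h) (by rw [if_neg hp, zero_pow h]), mul_zero]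

lemma theta_psi (d : V →₀ ℕ) (a : V × Fin 2 →₀ ℕ) :
    theta k d (coeff d (psi k {v | d v ≠ 0} (X : V → MvPolynomial V k) (monomial a 1))) =
      if sl 0 a + sl 1 a = d then monomial a 1 else 0 := by
  by_cases ha : ∀ p, a p ≠ 0 → p.1 ∈ {v | d v ≠ 0}
  · rw [psi_monomial a ha, coeff_monomial]
    split_ifs with h
    · rw [theta_monomial, ← h, if_pos le_self_add, add_tsub_cancel_left, mon_sl, one_smul]
    · exact map_zero _
  · simp only [not_forall] at ha
    obtain ⟨p, h1, h2⟩ := ha
    rw [psi_monomial_zero a h1 h2, coeff_zero, map_zero, if_neg]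
    rintro rfl
    revert p
    refine fin_two (fun v h1 h2 => h2 ?_) fun v h1 h2 => h2 ?_ <;>
    · change a (v, 0) + a (v, 1) ≠ 0
      omega

theorem mem_of_phi {f : MvPolynomial (V × Fin 2) k} (hf : ∀ U, phi k G U f = 0) : f ∈ JJ k G := by
  have h1 : f = ∑ d ∈ f.support.image fun a => sl 0 a + sl 1 a,
      theta k d (coeff d (psi k {v | d v ≠ 0} (X : V → MvPolynomial V k) f)) := by
    have h2 : f = ∑ a ∈ f.support, coeff a f • monomial a 1 := by
      simp only [smul_monomial, smul_eq_mul, mul_one]
      exact f.as_sum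
    have h3 : ∀ d : V →₀ ℕ,
        theta k d (coeff d (psi k {v | d v ≠ 0} (X : V → MvPolynomial V k) f)) =
        ∑ a ∈ f.support, coeff a f • if sl 0 a + sl 1 a = d then monomial a 1 else 0 := by
      intro d
      conv_lhs => rw [h2]
      simp only [map_sum, map_smul, coeff_sum, coeff_smul, theta_psi]
    simp only [h3]
    rw [Finset.sum_comm]
    refine h2.trans (Finset.sum_congr rfl fun a ha => ?_)
    rw [← Finset.smul_sum, Finset.sum_ite_eq, if_pos (Finset.mem_image_of_mem _ ha)]
  rw [h1]
  exact sum_mem fun d _ => theta_mem (fun v hv => hv) (coeff_mem (hf _) d)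

end Pool.Agent.Lib.MP_dc74b6_ag.Graph
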