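import Pool.Agent.Lib.MP_dc74b6_ag.Graph.Inj

/-!
The associated and the embedded primes of the first jet ideal of a graph.
-/

noncomputable section

namespace Pool.Agent.Lib.MP_dc74b6_ag.Graph

open MvPolynomial Classical

variable {k : Type} [Field k] {V : Type} {G : SimpleGraph V} {U : Set V}

/-- the condition at a vertex outside `U` -/
def Ok (k : Type) [Field k] (G : SimpleGraph V) (U : Set V) (j : V) : Prop :=
  (∃ i, Iso G U i ∧ G.Adj j i) ∨ ∃ i ∈ U, ∃ v ∈ U, G.Adj j i ∧ G.Adj j v ∧ ¬ Tied k G U i v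

lemma iso_insert {j v : V} (h : ∀ i, Iso G U i → ¬ G.Adj j i) (hv : v ≠ j) :
    Iso G (insert j U) v ↔ Iso G U v := by
  refine ⟨fun h1 => ⟨h1.1.resolve_left hv, fun w hw => h1.2 w (.inr hw)⟩, fun h1 =>
    ⟨.inr h1.1, ?_⟩⟩
  rintro w (rfl | hw)
  exacts [fun h2 => h v h1 h2.symm, h1.2 w hw]

lemma phi_of_insert {j : V} (hj : j ∉ U) (h : ¬ Ok k G U j) {f : MvPolynomial (V × Fin 2) k}
    (hf : phi k G (insert j U) f = 0) : phi k G U f = 0 := by
  simp only [Ok, not_or, not_exists, not_and, not_not] at h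
  obtain ⟨c, hc1, hc2⟩ : ∃ c : A k G U, (∀ i ∈ U, G.Adj j i → c = -uu k G U i) ∧
      ((∀ i ∈ U, ¬ G.Adj j i) → c = 0) := by
    by_cases h1 : ∃ i ∈ U, G.Adj j i
    · obtain ⟨i, hi, h2⟩ := h1
      exact ⟨-uu k G U i, fun v hv h3 => by rw [(h.2 i hi v hv h2 h3).eq rel_uu.2.1],
        fun h3 => absurd h2 (h3 i hi)⟩
    · exact ⟨0, fun i hi h2 => absurd ⟨i, hi, h2⟩ h1, fun _ => rfl⟩
  have hne : ∀ a ∈ U, a ≠ j := fun a ha h1 => hj (h1 ▸ ha)
  obtain ⟨ρ, hρ⟩ := exists_lift (k := k) (G := G) (U := insert j U)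
    (u := fun v => if v = j then c else uu k G U v) (by
      refine ⟨?_, ?_, fun a ha => ?_⟩
      · rintro a (rfl | ha) b (rfl | hb) hab
        · exact absurd rfl hab.ne
        · simp only [if_pos, if_neg (hne b hb), hc1 b hb hab, neg_mul, rel_uu.sq, neg_zero]
        · simp only [if_pos, if_neg (hne a ha), hc1 a ha hab.symm, mul_neg, rel_uu.sq, neg_zero]
        · simp only [if_neg (hne a ha), if_neg (hne b hb), rel_uu.1 a ha b hb hab]
      · rintro a (rfl | ha) b (rfl | hb) hab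
        · exact absurd rfl hab.ne
        · simp only [if_pos, if_neg (hne b hb), hc1 b hb hab, neg_add_cancel]
        · simp only [if_pos, if_neg (hne a ha), hc1 a ha hab.symm, add_neg_cancel]
        · simp only [if_neg (hne a ha), if_neg (hne b hb), rel_uu.2.1 a ha b hb hab]
      · simp only
        split_ifs with h1
        · subst h1
          exact hc2 fun i hi => (ha.resolve_left fun h2 => h2 (.inl rfl)).2 i (.inr hi)
        · exact rel_uu.2.2 a (ha.imp (fun h2 h3 => h2 (.inr h3)) (iso_insert h.1 h1).1))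
  have h3 : phi k G U = (aevalTower
      ((IsScalarTower.toAlgHom k (A k G U) (MvPolynomial (V × Fin 2) (A k G U))).comp ρ)
      fun p : V × Fin 2 => if p.1 = j then 0 else X p).comp (phi k G (insert j U)) := by
    refine algHom_ext (fin_two (fun v => ?_) fun v => ?_)
    · rw [AlgHom.comp_apply]
      rcases eq_or_ne v j with rfl | hv
      · rw [phi_x_out hj, phi_x]
        split_ifs <;> simp
      · rw [phi_x, phi_x, iso_insert h.1 hv]
        split_ifs <;> simp [hv, hρ]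
    · rw [AlgHom.comp_apply, phi_y, phi_y]
      rcases eq_or_ne v j with rfl | hv
      · simp [hj]
      · by_cases h4 : v ∈ U <;> simp [hv, h4]
  rw [h3, AlgHom.comp_apply, hf, map_zero]

lemma exists_ok [Finite V] {f : MvPolynomial (V × Fin 2) k} (U : Set V) (hf : phi k G U f ≠ 0) :
    ∃ W, (∀ j ∉ W, Ok k G W j) ∧ phi k G W f ≠ 0 := by
  obtain ⟨W, hW⟩ := exists_maximal_of_wellFoundedGT (fun W : Set V => phi k G W f ≠ 0) ⟨U, hf⟩
  refine ⟨W, fun j hj => ?_, hW.1⟩
  by_contra h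
  exact hj (hW.2 (fun h1 => hW.1 (phi_of_insert hj h h1)) (Set.subset_insert j W) (.inl rfl))

/-- a maximal nonzero product of slopes meets every good component -/
lemma exists_rep {T : Finset V} (hT : ∏ t ∈ T, uu k G U t ≠ 0)
    (hmax : ∀ i ∉ T, uu k G U i * ∏ t ∈ T, uu k G U t = 0) {i : V} (hi : i ∈ U)
    (hi' : ¬ Iso G U i) (hg : (2 : k) = 0 ∨ ¬ ∃ m, Odd m ∧ InWalk G U i i m) :
    ∃ t ∈ T, ∃ m, InWalk G U i t m := by
  by_contra h
  simp only [not_exists, not_and] at h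
  obtain ⟨ρ, hρ⟩ := exists_lift (k := k) (G := G) (U := U)
    (u := fun v => if ∃ m, InWalk G U i v m then
      (TrivSqZeroExt.inr (if ∃ m, Even m ∧ InWalk G U i v m then 1 else -1) :
        TrivSqZeroExt (A k G U) (A k G U)) else TrivSqZeroExt.inl (uu k G U v)) (by
      have h1 : ∀ a ∈ U, ∀ b ∈ U, G.Adj a b → (∃ m, InWalk G U i a m) → ∃ m, InWalk G U i b m :=
        fun a ha b hb hab ⟨m, hm⟩ => ⟨_, hm.trans (.edge ha hb hab)⟩
      refine ⟨fun a ha b hb hab => ?_, fun a ha b hb hab => ?_, fun a ha => ?_⟩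
      · by_cases h2 : ∃ m, InWalk G U i a m
        · simp only [if_pos h2, if_pos (h1 a ha b hb hab h2), TrivSqZeroExt.inr_mul_inr]
        · simp only [if_neg h2, if_neg fun h3 => h2 (h1 b hb a ha hab.symm h3),
            ← TrivSqZeroExt.inl_mul, rel_uu.1 a ha b hb hab, TrivSqZeroExt.inl_zero]
      · by_cases h2 : ∃ m, InWalk G U i a m
        · simp only [if_pos h2, if_pos (h1 a ha b hb hab h2), ← TrivSqZeroExt.inr_add]
          rw [← TrivSqZeroExt.inr_zero (A k G U)]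
          congr 1
          rcases hg with hg | hg
          · have h3 := two_eq_zero (R := A k G U) hg
            split_ifs
            exacts [by linear_combination h3, by ring, by ring, by linear_combination -h3]
          · split_ifs with h3 h4 h4
            · obtain ⟨m, h5, hm⟩ := h3
              obtain ⟨n, h6, hn⟩ := h4
              exact absurd ⟨_, (h5.add_one).add_even h6, (hm.trans (.edge ha hb hab)).trans hn.symm⟩ hg
            · ring
            · ring
            · obtain ⟨m, hm⟩ := h2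
              rcases Nat.even_or_odd m with h5 | h5
              · exact absurd ⟨m, h5, hm⟩ h3
              · exact absurd ⟨_, h5.add_one, hm.trans (.edge ha hb hab)⟩ h4
        · simp only [if_neg h2, if_neg fun h3 => h2 (h1 b hb a ha hab.symm h3),
            ← TrivSqZeroExt.inl_add, rel_uu.2.1 a ha b hb hab, TrivSqZeroExt.inl_zero]
      · have h2 : ¬ ∃ m, InWalk G U i a m := fun ⟨m, hm⟩ =>
          ha.elim (fun h3 => h3 hm.mem) (hm.not_iso hi')
        simp only [if_neg h2, rel_uu.2.2 a ha, TrivSqZeroExt.inl_zero])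
  have h1 := congrArg ρ (hmax i fun h1 => h i h1 0 (.refl hi))
  have h2 : ρ (∏ t ∈ T, uu k G U t) = TrivSqZeroExt.inl (∏ t ∈ T, uu k G U t) := by
    rw [map_prod, ← TrivSqZeroExt.inlHom_apply, map_prod]
    exact Finset.prod_congr rfl fun t ht => by rw [hρ, if_neg fun ⟨m, hm⟩ => h t ht m hm]; rfl
  rw [map_mul, map_zero, h2, hρ, if_pos ⟨0, .refl hi⟩, if_pos ⟨0, Even.zero, .refl hi⟩] at h1
  exact hT (by simpa using congrArg TrivSqZeroExt.snd h1)

lemma prod_eq_zero {R : Type} [CommRing R] [Algebra k R] {T : Finset V}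
    (hT : ∏ t ∈ T, uu k G U t ≠ 0) (hmax : ∀ i ∉ T, uu k G U i * ∏ t ∈ T, uu k G U t = 0)
    {u : V → R} (hu : ∀ a ∈ U, ∀ b ∈ U, G.Adj a b → u a + u b = 0) (hsq : ∀ a, u a * u a = 0)
    {i v : V} (hi : i ∈ U) (hi' : ¬ Iso G U i) (hv : v ∈ U) (hv' : ¬ Iso G U v)
    (hg : (2 : k) = 0 ∨ ¬ ∃ m, Odd m ∧ InWalk G U i i m) (hn : ¬ Tied k G U i v)
    (he : u v = u i) : ∏ t ∈ T, u t = 0 := by
  obtain ⟨t, ht, m, hm⟩ := exists_rep hT hmax hi hi' hg
  have h0 : u i = 0 → ∏ t ∈ T, u t = 0 := fun h =>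
    Finset.prod_eq_zero ht (by rw [hm.sign hu, h, mul_zero])
  by_cases hg' : (2 : k) = 0 ∨ ¬ ∃ m, Odd m ∧ InWalk G U v v m
  · obtain ⟨t', ht', n, hn'⟩ := exists_rep hT hmax hv hv' hg'
    rcases eq_or_ne t t' with rfl | htt
    · have h1 := hm.trans hn'.symm
      have h2 : (2 : k) ≠ 0 := fun h => hn (.inl ⟨h, _, h1⟩)
      have h3 : Odd (m + n) := Nat.not_even_iff_odd.1 fun h => hn (.inr (.inl ⟨_, h, h1⟩))
      have h4 := h1.sign hu
      rw [h3.neg_one_pow, neg_one_mul, he] at h4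
      exact h0 (zero_of_neg h2 h4)
    · rw [← Finset.mul_prod_erase T u ht,
        ← Finset.mul_prod_erase _ u (Finset.mem_erase.2 ⟨htt.symm, ht'⟩), hm.sign hu, hn'.sign hu, he]
      linear_combination ((-1) ^ m * (-1) ^ n * ∏ x ∈ (T.erase t).erase t', u x) * hsq i
  · simp only [not_or, not_not] at hg'
    obtain ⟨h2, n, h3, hn'⟩ := hg'
    have h4 := hn'.sign hu
    rw [h3.neg_one_pow, neg_one_mul, he] at h4
    exact h0 (zero_of_neg h2 h4)

lemma Tied.symm {i v : V} (h : Tied k G U i v) : Tied k G U v i := by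
  rcases h with ⟨h1, m, hm⟩ | ⟨m, h1, hm⟩ | ⟨h1, h2, h3⟩
  exacts [.inl ⟨h1, m, hm.symm⟩, .inr (.inl ⟨m, h1, hm.symm⟩), .inr (.inr ⟨h1, h3, h2⟩)]

lemma exists_wit [Finite V] (hU : ∀ j ∉ U, Ok k G U j) :
    ∃ w, phi k G U w ≠ 0 ∧ ∀ W, W ≠ U → phi k G W w = 0 := by
  have := Fintype.ofFinite V
  obtain ⟨T, hT, hmax'⟩ := exists_maximal_of_wellFoundedGT
    (fun T : Finset V => ∏ t ∈ T, uu k G U t ≠ 0) ⟨∅, by simp⟩
  have hmax : ∀ i ∉ T, uu k G U i * ∏ t ∈ T, uu k G U t = 0 := by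
    intro i hi
    by_contra h
    exact hi (hmax' (y := insert i T) (by simp only; rwa [Finset.prod_insert hi]) (Finset.subset_insert i T)
      (Finset.mem_insert_self i T))
  have hTU : ∀ t ∈ T, t ∈ U ∧ ¬ Iso G U t := by
    intro t ht
    have h1 : ¬ (t ∉ U ∨ Iso G U t) := fun h => hT (Finset.prod_eq_zero ht (rel_uu.2.2 t h))
    simpa only [not_or, not_not] using h1
  have hx : ∀ W, U ⊆ W → phi k G W (∏ t ∈ T, X (t, 0)) =
      C (∏ t ∈ T, uu k G W t) * ∏ t ∈ T, X (t, 1) := by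
    intro W hW
    rw [map_prod, map_prod, ← Finset.prod_mul_distrib]
    exact Finset.prod_congr rfl fun t ht => by
      rw [phi_x, if_neg fun h => (hTU t ht).2 ⟨(hTU t ht).1, fun v hv => h.2 v (hW hv)⟩]
  refine ⟨(∏ i with Iso G U i, X (i, 0) ^ 2) * (∏ t ∈ T, X (t, 0)) * ∏ i with i ∈ U, X (i, 1),
    fun h => ?_, fun W hW => ?_⟩
  · have h1 : phi k G U (∏ i with Iso G U i, X (i, 0) ^ 2) = ∏ i with Iso G U i, X (i, 0) ^ 2 := by
      rw [map_prod]
      exact Finset.prod_congr rfl fun i hi => by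
        rw [map_pow, phi_x, if_pos (Finset.mem_filter.1 hi).2]
    have h2 : phi k G U (∏ i with i ∈ U, X (i, 1)) = ∏ i with i ∈ U, X (i, 1) := by
      rw [map_prod]
      exact Finset.prod_congr rfl fun i hi => by rw [phi_y, if_pos (Finset.mem_filter.1 hi).2]
    rw [map_mul, map_mul, hx U subset_rfl, h1, h2] at h
    exact hT (by simpa using congrArg (eval fun _ => (1 : A k G U)) h)
  · rw [map_mul, map_mul]
    by_cases h1 : U ⊆ W
    · obtain ⟨j, hj, hj'⟩ := Set.exists_of_ssubset (h1.ssubset_of_ne hW.symm)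
      refine mul_eq_zero_of_left ?_ _
      by_cases h2 : ∃ i, Iso G U i ∧ G.Adj j i
      · obtain ⟨i, hi, h2⟩ := h2
        refine mul_eq_zero_of_left ?_ _
        rw [map_prod]
        refine Finset.prod_eq_zero (Finset.mem_filter.2 ⟨Finset.mem_univ i, hi⟩) ?_
        rw [map_pow, phi_x, if_neg fun h => h.2 j hj h2.symm, mul_pow, ← map_pow, sq, rel_uu.sq,
          map_zero, zero_mul]
      · obtain ⟨i, hi, v, hv, h3, h4, h5⟩ := (hU j hj').resolve_left h2
        have hu : ∀ a ∈ U, ∀ b ∈ U, G.Adj a b → uu k G W a + uu k G W b = 0 :=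
          fun a ha b hb => rel_uu.2.1 a (h1 ha) b (h1 hb)
        have he : uu k G W v = uu k G W i := by
          linear_combination (rel_uu (k := k)).2.1 j hj v (h1 hv) h4 -
            (rel_uu (k := k)).2.1 j hj i (h1 hi) h3
        have h6 : ∏ t ∈ T, uu k G W t = 0 := by
          by_cases hg : (2 : k) = 0 ∨ ¬ ∃ m, Odd m ∧ InWalk G U i i m
          · exact prod_eq_zero hT hmax hu rel_uu.sq hi (fun h => h2 ⟨i, h, h3⟩) hv
              (fun h => h2 ⟨v, h, h4⟩) hg h5 he
          · simp only [not_or, not_not] at hg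
            exact prod_eq_zero hT hmax hu rel_uu.sq hv (fun h => h2 ⟨v, h, h4⟩) hi
              (fun h => h2 ⟨i, h, h3⟩) (.inr fun h => h5 (.inr (.inr ⟨hg.1, hg.2, h⟩)))
              (fun h => h5 h.symm) he.symm
        rw [hx W h1, h6, map_zero, zero_mul, mul_zero]
    · obtain ⟨i, hi, hi'⟩ := Set.not_subset.1 h1
      refine mul_eq_zero_of_right _ ?_
      rw [map_prod]
      exact Finset.prod_eq_zero (Finset.mem_filter.2 ⟨Finset.mem_univ i, hi⟩)
        (by rw [phi_y, if_neg hi'])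

lemma mem_colon [Finite V] {f w : MvPolynomial (V × Fin 2) k} :
    f ∈ (⊥ : Submodule _ (MvPolynomial (V × Fin 2) k ⧸ JJ k G)).colon
      {Ideal.Quotient.mk (JJ k G) w} ↔ ∀ W, phi k G W f * phi k G W w = 0 := by
  rw [Submodule.mem_colon_singleton, Submodule.mem_bot]
  change Ideal.Quotient.mk (JJ k G) (f * w) = 0 ↔ _
  rw [Ideal.Quotient.eq_zero_iff_mem]
  simp only [← map_mul]
  exact ⟨fun h W => phi_of_mem h, mem_of_phi⟩

theorem mem_ass [Finite V] {P : Ideal (MvPolynomial (V × Fin 2) k)} :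
    P ∈ associatedPrimes _ (MvPolynomial (V × Fin 2) k ⧸ JJ k G) ↔
      ∃ U, P = primeOf k G U ∧ ∀ j ∉ U, Ok k G U j := by
  have := Fintype.ofFinite V
  constructor
  · rintro ⟨hP, x, hx⟩
    obtain ⟨w, rfl⟩ := Ideal.Quotient.mk_surjective x
    have h1 : (Finset.univ.filter fun W : Set V => (∀ j ∉ W, Ok k G W j) ∧ phi k G W w ≠ 0).inf
        (primeOf k G) ≤ P := by
      intro f hf
      have h2 : ∀ W : Set V, ∃ n : ℕ, (∀ j ∉ W, Ok k G W j) → phi k G W (f ^ n * w) = 0 := by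
        intro W
        by_cases h3 : (∀ j ∉ W, Ok k G W j) ∧ phi k G W w ≠ 0
        · obtain ⟨n, hn⟩ := nilpotent_of_mem (Submodule.mem_finsetInf.1 hf W
            (Finset.mem_filter.2 ⟨Finset.mem_univ W, h3⟩))
          exact ⟨n, fun _ => by rw [map_mul, map_pow, hn, zero_mul]⟩
        · exact ⟨0, fun h4 => by rw [pow_zero, one_mul]; exact not_not.1 fun h5 => h3 ⟨h4, h5⟩⟩
      choose n hn using h2
      rw [hx]
      refine ⟨∑ W, n W, mem_colon.2 fun W => ?_⟩
      rw [← map_mul]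
      by_contra h3
      obtain ⟨W', h4, h5⟩ := exists_ok W h3
      rw [← Finset.add_sum_erase _ n (Finset.mem_univ W'), add_comm, pow_add, mul_assoc, map_mul,
        hn W' h4, mul_zero] at h5
      exact h5 rfl
    obtain ⟨W, hW, h2⟩ := hP.inf_le'.1 h1
    have h3 := (Finset.mem_filter.1 hW).2
    refine ⟨W, le_antisymm ?_ h2, h3.1⟩
    rw [hx, primeOf_isPrime.radical_le_iff]
    exact fun f hf => mem_of_mul h3.2 (mem_colon.1 hf W)
  · rintro ⟨U, rfl, hU⟩
    obtain ⟨w, h1, h2⟩ := exists_wit hU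
    refine ⟨primeOf_isPrime, Ideal.Quotient.mk _ w, le_antisymm (fun f hf => ?_) ?_⟩
    · obtain ⟨n, hn⟩ := nilpotent_of_mem hf
      refine ⟨n, mem_colon.2 fun W => ?_⟩
      rcases eq_or_ne W U with rfl | h
      · rw [map_pow, hn, zero_mul]
      · rw [h2 W h, mul_zero]
    · rw [primeOf_isPrime.radical_le_iff]
      exact fun f hf => mem_of_mul h1 (mem_colon.1 hf U)

lemma le_primeOf [Finite V] : JJ k G ≤ primeOf k G U := fun f hf =>
  mem_of_mul one_ne_zero (by rw [phi_of_mem hf, zero_mul])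

theorem mem_minimal [Finite V] :
    primeOf k G U ∈ (JJ k G).minimalPrimes ↔ ∀ j ∉ U, ∃ i, Iso G U i ∧ G.Adj j i := by
  constructor
  · intro h j hj
    by_contra h1
    simp only [not_exists, not_and] at h1
    have h2 : primeOf k G (insert j U) ≤ primeOf k G U := by
      rw [primeOf, Ideal.span_le]
      rintro _ (⟨v, hv, rfl⟩ | ⟨v, hv, rfl⟩)
      · refine x_mem fun h3 => hv ((iso_insert h1 ?_).2 h3)
        rintro rfl
        exact hj h3.1
      · exact y_mem fun h3 => hv (.inr h3)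
    exact y_notMem (Set.mem_insert j U) (h.2 ⟨primeOf_isPrime, le_primeOf⟩ h2 (y_mem hj))
  · refine fun h => ⟨⟨primeOf_isPrime, le_primeOf⟩, fun Q hQ hle => ?_⟩
    have h1 : ∀ j ∉ U, X (j, 0) ∈ Q ∧ X (j, 1) ∈ Q := by
      intro j hj
      obtain ⟨i, hi, hij⟩ := h j hj
      have h2 : X (i, 0) ∉ Q := fun h3 => x_notMem hi (hle h3)
      have h3 := (hQ.1.mem_or_mem (hQ.2 (gen_zero hij))).resolve_right h2
      have h4 := sub_mem (hQ.2 (gen_one hij)) (Q.mul_mem_right (X (i, 1)) h3)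
      rw [add_sub_cancel_left] at h4
      exact ⟨h3, (hQ.1.mem_or_mem h4).resolve_right h2⟩
    rw [primeOf, Ideal.span_le]
    rintro _ (⟨v, hv, rfl⟩ | ⟨v, hv, rfl⟩)
    · by_cases h2 : v ∈ U
      · simp only [Iso, not_and, not_forall, not_not] at hv
        obtain ⟨b, hb, h3⟩ := hv h2
        have h4 := sub_mem (Q.mul_mem_left (X (v, 0)) (hQ.2 (gen_one h3)))
          (Q.mul_mem_left (X (v, 1)) (hQ.2 (gen_zero h3)))
        have h5 : (X (v, 0) * (X (v, 0) * X (b, 1) + X (v, 1) * X (b, 0)) -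
            X (v, 1) * (X (v, 0) * X (b, 0)) : MvPolynomial (V × Fin 2) k) =
            X (v, 0) * X (v, 0) * X (b, 1) := by ring
        rw [h5] at h4
        exact (hQ.1.mem_or_mem ((hQ.1.mem_or_mem h4).resolve_right
          fun h6 => y_notMem hb (hle h6))).elim id id
      · exact (h1 v h2).1
    · exact (h1 v hv).2

end Pool.Agent.Lib.MP_dc74b6_ag.Graph
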