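import Pool.Agent.Lib.MP_dc74b6_ag.Graph.Defs

/-!
Walks, the Artinian rings `A U` and the maps `phi U`.
-/

noncomputable section

namespace Pool.Agent.Lib.MP_dc74b6_ag.Graph

open MvPolynomial Classical

variable {k : Type} [Field k] {V : Type} {G : SimpleGraph V} {U : Set V}

section walks

variable {i v w : V} {m n : ℕ}

lemma InWalk.refl (h : i ∈ U) : InWalk G U i i 0 := ⟨.nil, by simpa using h, rfl⟩

lemma InWalk.symm (h : InWalk G U i v m) : InWalk G U v i m := by
  obtain ⟨p, h1, h2⟩ := h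
  exact ⟨p.reverse, by simpa using h1, by simpa using h2⟩

lemma InWalk.trans (h : InWalk G U i v m) (h' : InWalk G U v w n) : InWalk G U i w (m + n) := by
  obtain ⟨p, h1, h2⟩ := h
  obtain ⟨q, h3, h4⟩ := h'
  refine ⟨p.append q, fun x hx => ?_, by simp [h2, h4]⟩
  rcases (SimpleGraph.Walk.mem_support_append_iff _ _).1 hx with h | h
  exacts [h1 x h, h3 x h]

lemma InWalk.edge (hi : i ∈ U) (hv : v ∈ U) (h : G.Adj i v) : InWalk G U i v 1 :=
  ⟨.cons h .nil, by simp [hi, hv], rfl⟩

lemma InWalk.mem (h : InWalk G U i v m) : v ∈ U := by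
  obtain ⟨p, h1, -⟩ := h
  exact h1 v p.end_mem_support

lemma InWalk.not_iso (h : InWalk G U i v m) (hi : ¬ Iso G U i) : ¬ Iso G U v := by
  obtain ⟨p, h1, -⟩ := h
  induction p with
  | nil => exact hi
  | cons h p ih =>
    exact ih (fun hh => hh.2 _ (h1 _ (by simp)) h.symm) fun x hx => h1 x (by simp [hx])

lemma InWalk.sign {R : Type} [CommRing R] {u : V → R}
    (hu : ∀ a ∈ U, ∀ b ∈ U, G.Adj a b → u a + u b = 0) (h : InWalk G U i v m) :
    u v = (-1) ^ m * u i := by
  obtain ⟨p, h1, rfl⟩ := h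
  induction p with
  | nil => simp
  | cons h p ih =>
    have h2 := hu _ (h1 _ (by simp)) _ (h1 _ (by simp)) h
    rw [ih fun x hx => h1 x (by simp [hx]), SimpleGraph.Walk.length_cons, pow_succ]
    linear_combination (-1) ^ p.length * h2

end walks

/-- the first jet ideal of the edge ideal -/
abbrev JJ (k : Type) [Field k] (G : SimpleGraph V) : Ideal (MvPolynomial (V × Fin 2) k) :=
  jetIdeal 1 (graphIdeal k G)

lemma jetSubst_X (i : V) :
    jetSubst k V 1 (X i) = Polynomial.C (X (i, 0)) + Polynomial.C (X (i, 1)) * Polynomial.X := by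
  simp [jetSubst, Fin.sum_univ_two]

lemma coeff_zero_mul (i j : V) :
    (jetSubst k V 1 (X i * X j)).coeff 0 = X (i, 0) * X (j, 0) := by
  simp [jetSubst_X, Polynomial.coeff_mul]

lemma coeff_one_mul (i j : V) :
    (jetSubst k V 1 (X i * X j)).coeff 1 = X (i, 0) * X (j, 1) + X (i, 1) * X (j, 0) := by
  rw [map_mul, jetSubst_X, jetSubst_X, Polynomial.coeff_mul]
  simp [Finset.Nat.antidiagonal_succ, Polynomial.coeff_X, Polynomial.coeff_C]

lemma gen_zero {i j : V} (h : G.Adj i j) : X (i, 0) * X (j, 0) ∈ JJ k G :=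
  Ideal.subset_span ⟨_, Ideal.subset_span ⟨i, j, h, rfl⟩, 0, by norm_num, (coeff_zero_mul i j).symm⟩

lemma gen_one {i j : V} (h : G.Adj i j) : X (i, 0) * X (j, 1) + X (i, 1) * X (j, 0) ∈ JJ k G :=
  Ideal.subset_span ⟨_, Ideal.subset_span ⟨i, j, h, rfl⟩, 1, le_rfl, (coeff_one_mul i j).symm⟩

lemma jet_le_ker {T : Type} [CommRing T] (φ : MvPolynomial (V × Fin 2) k →+* T)
    (h : ∀ i j, G.Adj i j → φ (X (i, 0)) * φ (X (j, 0)) = 0 ∧
      φ (X (i, 0)) * φ (X (j, 1)) + φ (X (i, 1)) * φ (X (j, 0)) = 0) :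
    JJ k G ≤ RingHom.ker φ := by
  have key : graphIdeal k G ≤ Ideal.comap
      ((Polynomial.mapRingHom φ).comp (jetSubst k V 1).toRingHom)
      (Ideal.span {(Polynomial.X : Polynomial T) ^ 2}) := by
    rw [graphIdeal, Ideal.span_le]
    rintro _ ⟨i, j, hij, rfl⟩
    rw [SetLike.mem_coe, Ideal.mem_comap, Ideal.mem_span_singleton, Polynomial.X_pow_dvd_iff]
    intro d hd
    change (Polynomial.map φ (jetSubst k V 1 (X i * X j))).coeff d = 0
    rw [Polynomial.coeff_map]
    interval_cases d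
    · rw [coeff_zero_mul, map_mul]; exact (h i j hij).1
    · rw [coeff_one_mul, map_add, map_mul, map_mul]; exact (h i j hij).2
  rw [JJ, jetIdeal, Ideal.span_le]
  rintro _ ⟨f, hf, j, hj, rfl⟩
  have h2 := key hf
  rw [Ideal.mem_comap, Ideal.mem_span_singleton, Polynomial.X_pow_dvd_iff] at h2
  have h3 := h2 j (by omega)
  change (Polynomial.map φ (jetSubst k V 1 f)).coeff j = 0 at h3
  rw [Polynomial.coeff_map] at h3
  exact h3

/-- the relations among the slopes `u_v = x_v / y_v` -/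
def Rel {R : Type} [CommRing R] (G : SimpleGraph V) (U : Set V) (u : V → R) : Prop :=
  (∀ a ∈ U, ∀ b ∈ U, G.Adj a b → u a * u b = 0) ∧ (∀ a ∈ U, ∀ b ∈ U, G.Adj a b → u a + u b = 0) ∧
    ∀ a, a ∉ U ∨ Iso G U a → u a = 0

/-- the ideal of these relations -/
def KK (k : Type) [Field k] (G : SimpleGraph V) (U : Set V) : Ideal (MvPolynomial V k) :=
  Ideal.span ({m | ∃ a ∈ U, ∃ b ∈ U, G.Adj a b ∧ m = X a * X b} ∪
    {m | ∃ a ∈ U, ∃ b ∈ U, G.Adj a b ∧ m = X a + X b} ∪ {m | ∃ a, (a ∉ U ∨ Iso G U a) ∧ m = X a})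

/-- the universal ring with these relations -/
def A (k : Type) [Field k] (G : SimpleGraph V) (U : Set V) : Type := MvPolynomial V k ⧸ KK k G U

instance : CommRing (A k G U) := inferInstanceAs (CommRing (MvPolynomial V k ⧸ KK k G U))

instance : Algebra k (A k G U) := inferInstanceAs (Algebra k (MvPolynomial V k ⧸ KK k G U))

/-- the quotient map -/
def mkA (k : Type) [Field k] (G : SimpleGraph V) (U : Set V) : MvPolynomial V k →ₐ[k] A k G U :=
  Ideal.Quotient.mkₐ k (KK k G U)

lemma mkA_eq_zero {c : MvPolynomial V k} : mkA k G U c = 0 ↔ c ∈ KK k G U :=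
  Ideal.Quotient.eq_zero_iff_mem

/-- the slopes -/
def uu (k : Type) [Field k] (G : SimpleGraph V) (U : Set V) (v : V) : A k G U := mkA k G U (X v)

lemma rel_uu : Rel G U (uu k G U) := by
  refine ⟨fun a ha b hb h => ?_, fun a ha b hb h => ?_, fun a h => ?_⟩
  · rw [uu, uu, ← map_mul, mkA_eq_zero]
    exact Ideal.subset_span (.inl (.inl ⟨a, ha, b, hb, h, rfl⟩))
  · rw [uu, uu, ← map_add, mkA_eq_zero]
    exact Ideal.subset_span (.inl (.inr ⟨a, ha, b, hb, h, rfl⟩))
  · rw [uu, mkA_eq_zero]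
    exact Ideal.subset_span (.inr ⟨a, h, rfl⟩)

lemma exists_lift {R : Type} [CommRing R] [Algebra k R] {u : V → R} (h : Rel G U u) :
    ∃ ρ : A k G U →ₐ[k] R, ∀ v, ρ (uu k G U v) = u v := by
  have h1 : KK k G U ≤ RingHom.ker (aeval u : MvPolynomial V k →ₐ[k] R) := by
    rw [KK, Ideal.span_le]
    rintro _ ((⟨a, ha, b, hb, hab, rfl⟩ | ⟨a, ha, b, hb, hab, rfl⟩) | ⟨a, ha, rfl⟩)
    · simpa using h.1 a ha b hb hab
    · simpa using h.2.1 a ha b hb hab
    · simpa using h.2.2 a ha
  exact ⟨Ideal.Quotient.liftₐ (KK k G U) (aeval u) fun a ha => h1 ha, fun v => aeval_X u v⟩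

lemma Rel.sq {R : Type} [CommRing R] {u : V → R} (h : Rel G U u) (v : V) : u v * u v = 0 := by
  by_cases h1 : v ∉ U ∨ Iso G U v
  · rw [h.2.2 v h1, mul_zero]
  · simp only [Iso, not_or, not_not, not_and, not_forall] at h1
    obtain ⟨b, hb, h2⟩ := h1.2 h1.1
    linear_combination u v * h.2.1 v h1.1 b hb h2 - h.1 v h1.1 b hb h2

lemma zero_of_neg {R : Type} [CommRing R] [Algebra k R] (h2 : (2 : k) ≠ 0) {x : R}
    (h : x = -x) : x = 0 := by
  have h1 : (2 : k) • x = 0 := by rw [two_smul]; linear_combination h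
  rw [← one_smul k x, ← inv_mul_cancel₀ h2, mul_smul, h1, smul_zero]

lemma two_eq_zero {R : Type} [CommRing R] [Algebra k R] (h2 : (2 : k) = 0) : (2 : R) = 0 := by
  rw [← map_ofNat (algebraMap k R) 2, h2, map_zero]

lemma Tied.eq {R : Type} [CommRing R] [Algebra k R] {u : V → R}
    (hu : ∀ a ∈ U, ∀ b ∈ U, G.Adj a b → u a + u b = 0) {i v : V} (h : Tied k G U i v) :
    u v = u i := by
  rcases h with ⟨h2, m, hm⟩ | ⟨m, h1, hm⟩ | ⟨h2, ⟨m, h1, hm⟩, n, h3, hn⟩
  · have h3 : (-1 : R) = 1 := by linear_combination -two_eq_zero (R := R) h2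
    rw [hm.sign hu, h3, one_pow, one_mul]
  · rw [hm.sign hu, h1.neg_one_pow, one_mul]
  · have h4 := hm.sign hu
    have h5 := hn.sign hu
    rw [h1.neg_one_pow, neg_one_mul] at h4
    rw [h3.neg_one_pow, neg_one_mul] at h5
    rw [zero_of_neg h2 h4, zero_of_neg h2 h5]

instance : Nontrivial (A k G U) := by
  obtain ⟨ρ, -⟩ := exists_lift (k := k) (G := G) (U := U) (u := fun _ => (0 : k)) (by simp [Rel])
  exact ρ.toRingHom.domain_nontrivial

/-- `x_v ↦ u_v y_v` unless `v` is isolated in `U`, and `y_v ↦ 0` outside `U` -/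
def phi (k : Type) [Field k] (G : SimpleGraph V) (U : Set V) :
    MvPolynomial (V × Fin 2) k →ₐ[k] MvPolynomial (V × Fin 2) (A k G U) :=
  aeval fun p => if p.2 = 0 then (if Iso G U p.1 then X (p.1, 0) else C (uu k G U p.1) * X (p.1, 1))
    else if p.1 ∈ U then X (p.1, 1) else 0

lemma phi_x (v : V) : phi k G U (X (v, 0)) =
    if Iso G U v then X (v, 0) else C (uu k G U v) * X (v, 1) := by simp [phi]

lemma phi_y (v : V) : phi k G U (X (v, 1)) = if v ∈ U then X (v, 1) else 0 := by simp [phi]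

lemma phi_x_out {v : V} (h : v ∉ U) : phi k G U (X (v, 0)) = 0 := by
  rw [phi_x, if_neg fun h1 => h h1.1, rel_uu.2.2 v (.inl h), map_zero, zero_mul]

lemma phi_of_mem {f : MvPolynomial (V × Fin 2) k} (hf : f ∈ JJ k G) : phi k G U f = 0 := by
  refine jet_le_ker (phi k G U).toRingHom (fun i j h => ?_) hf
  change phi k G U _ * phi k G U _ = 0 ∧
    phi k G U _ * phi k G U _ + phi k G U _ * phi k G U _ = 0
  by_cases hi : i ∈ U
  · by_cases hj : j ∈ U
    · have h1 := congrArg (C (σ := V × Fin 2)) ((rel_uu (k := k)).1 i hi j hj h)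
      have h2 := congrArg (C (σ := V × Fin 2)) ((rel_uu (k := k)).2.1 i hi j hj h)
      rw [map_mul, map_zero] at h1
      rw [map_add, map_zero] at h2
      rw [phi_x, phi_x, phi_y, phi_y, if_neg fun h3 => h3.2 j hj h,
        if_neg fun h3 => h3.2 i hi h.symm, if_pos hi, if_pos hj]
      exact ⟨by linear_combination X (i, 1) * X (j, 1) * h1,
        by linear_combination X (i, 1) * X (j, 1) * h2⟩
    · simp [phi_x_out hj, phi_y, hj]
  · simp [phi_x_out hi, phi_y, hi]

/-- killing the generators of `primeOf` -/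
def kill (k : Type) [Field k] (G : SimpleGraph V) (U : Set V) :
    MvPolynomial (V × Fin 2) k →ₐ[k] MvPolynomial (V × Fin 2) k :=
  aeval fun p => if p.2 = 0 then (if Iso G U p.1 then X p else 0) else if p.1 ∈ U then X p else 0

lemma kill_x (v : V) : kill k G U (X (v, 0)) = if Iso G U v then X (v, 0) else 0 := by simp [kill]

lemma kill_y (v : V) : kill k G U (X (v, 1)) = if v ∈ U then X (v, 1) else 0 := by simp [kill]

lemma x_mem {v : V} (h : ¬ Iso G U v) : X (v, 0) ∈ primeOf k G U :=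
  Ideal.subset_span (.inl ⟨v, h, rfl⟩)

lemma y_mem {v : V} (h : v ∉ U) : X (v, 1) ∈ primeOf k G U := Ideal.subset_span (.inr ⟨v, h, rfl⟩)

lemma primeOf_eq : primeOf k G U = RingHom.ker (kill k G U) := by
  refine le_antisymm ?_ fun f hf => ?_
  · rw [primeOf, Ideal.span_le]
    rintro _ (⟨v, h, rfl⟩ | ⟨v, h, rfl⟩)
    · exact (kill_x v).trans (if_neg h)
    · exact (kill_y v).trans (if_neg h)
  · have h1 : (Ideal.Quotient.mkₐ k (primeOf k G U)).comp (kill k G U) =
        Ideal.Quotient.mkₐ k (primeOf k G U) := by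
      refine algHom_ext fun ⟨v, j⟩ => ?_
      rw [AlgHom.comp_apply]
      fin_cases j
      · erw [kill_x]
        split_ifs with h
        · rfl
        · exact (map_zero _).trans (Ideal.Quotient.eq_zero_iff_mem.2 (x_mem h)).symm
      · erw [kill_y]
        split_ifs with h
        · rfl
        · exact (map_zero _).trans (Ideal.Quotient.eq_zero_iff_mem.2 (y_mem h)).symm
    have h2 := AlgHom.congr_fun h1 f
    rw [AlgHom.comp_apply, RingHom.mem_ker.1 hf, map_zero] at h2
    exact Ideal.Quotient.eq_zero_iff_mem.1 h2.symm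

lemma primeOf_isPrime : (primeOf k G U).IsPrime := by
  rw [primeOf_eq]
  exact RingHom.ker_isPrime _

lemma x_notMem {v : V} (h : Iso G U v) : X (v, 0) ∉ primeOf k G U := by
  rw [primeOf_eq, RingHom.mem_ker, kill_x, if_pos h]
  exact X_ne_zero _

lemma y_notMem {v : V} (h : v ∈ U) : X (v, 1) ∉ primeOf k G U := by
  rw [primeOf_eq, RingHom.mem_ker, kill_y, if_pos h]
  exact X_ne_zero _

lemma fin_two {p : V × Fin 2 → Prop} (h0 : ∀ v, p (v, 0)) (h1 : ∀ v, p (v, 1)) (x : V × Fin 2) :
    p x := by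
  obtain ⟨v, j⟩ := x
  fin_cases j
  exacts [h0 v, h1 v]

lemma nilpotent_sub (f : MvPolynomial (V × Fin 2) k) :
    IsNilpotent (phi k G U f - map (algebraMap k (A k G U)) (kill k G U f)) := by
  have h0 : ∀ x, phi k G U (X x) - map (algebraMap k (A k G U)) (kill k G U (X x)) ∈
      nilradical (MvPolynomial (V × Fin 2) (A k G U)) := by
    refine fin_two (fun v => ?_) fun v => ?_
    · rw [kill_x, phi_x]
      split_ifs with h
      · rw [map_X, sub_self]
        exact zero_mem _
      · rw [map_zero, sub_zero]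
        refine Ideal.mul_mem_right _ _ (mem_nilradical.2 ⟨2, ?_⟩)
        rw [sq, ← map_mul, rel_uu.sq, map_zero]
    · rw [kill_y, phi_y]
      split_ifs with h
      · rw [map_X, sub_self]
        exact zero_mem _
      · rw [map_zero, sub_zero]
        exact zero_mem _
  rw [← mem_nilradical]
  induction f using MvPolynomial.induction_on with
  | C a =>
    rw [algHom_C, algHom_C, algebraMap_eq, map_C, MvPolynomial.algebraMap_apply, sub_self]
    exact zero_mem _
  | add p q hp hq =>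
    rw [map_add, map_add, map_add, add_sub_add_comm]
    exact add_mem hp hq
  | mul_X p x hp =>
    have h1 := add_mem (Ideal.mul_mem_right (phi k G U (X x)) _ hp)
      (Ideal.mul_mem_left _ (map (algebraMap k (A k G U)) (kill k G U p)) (h0 x))
    rw [map_mul, map_mul, map_mul]
    rwa [sub_mul, mul_sub, sub_add_sub_cancel] at h1

lemma nilpotent_of_mem {f : MvPolynomial (V × Fin 2) k} (hf : f ∈ primeOf k G U) :
    IsNilpotent (phi k G U f) := by
  have h := nilpotent_sub (G := G) (U := U) f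
  rw [primeOf_eq, RingHom.mem_ker] at hf
  rwa [hf, map_zero, sub_zero] at h

lemma eq_zero_of_map_mul {σ R : Type} [Finite σ] [CommRing R] [Nontrivial R] [Algebra k R]
    {p : MvPolynomial σ k} (hp : p ≠ 0) {g : MvPolynomial σ R}
    (h : map (algebraMap k R) p * g = 0) : g = 0 := by
  obtain ⟨_, -⟩ := exists_wellFoundedLT σ
  let m : MonomialOrder σ := MonomialOrder.lex
  have h1 : m.leadingCoeff (map (algebraMap k R) p) = algebraMap k R (m.leadingCoeff p) := by
    simp only [MonomialOrder.leadingCoeff, MonomialOrder.degree, coeff_map,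
      support_map_of_injective p (algebraMap k R).injective]
  have h2 : IsRegular (m.leadingCoeff (map (algebraMap k R) p)) := by
    rw [h1]
    exact ((m.leadingCoeff_ne_zero_iff.2 hp).isUnit.map _).isRegular
  have h3 := m.leadingCoeff_mul_of_isRegular_left (g := g) h2
  rw [h, m.leadingCoeff_zero] at h3
  exact m.leadingCoeff_eq_zero_iff.1 (h2.left.mul_left_eq_zero_iff.1 h3.symm)

/-- the kernel of `phi` is primary -/
lemma mem_of_mul [Finite V] {f : MvPolynomial (V × Fin 2) k}
    {g : MvPolynomial (V × Fin 2) (A k G U)} (hg : g ≠ 0) (h : phi k G U f * g = 0) :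
    f ∈ primeOf k G U := by
  rw [primeOf_eq, RingHom.mem_ker]
  by_contra hf
  obtain ⟨N, hN⟩ := (nilpotent_sub (G := G) (U := U) f).neg
  refine hg (eq_zero_of_map_mul (pow_ne_zero N hf) ?_)
  have h1 : ∀ n : ℕ, map (algebraMap k (A k G U)) (kill k G U f) ^ n * g =
      (-(phi k G U f - map (algebraMap k (A k G U)) (kill k G U f))) ^ n * g := by
    intro n
    induction n with
    | zero => simp
    | succ n ih =>
      rw [pow_succ', mul_assoc, ih, pow_succ]
      linear_combination (-(phi k G U f - map (algebraMap k (A k G U)) (kill k G U f))) ^ n * h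
  rw [map_pow, h1, hN, zero_mul]

end Pool.Agent.Lib.MP_dc74b6_ag.Graph
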